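import Pool.Agent.Lib.helper16.Fitting

set_option maxHeartbeats 400000

namespace Pool.Agent.H.MP_36bee3_al

open Subgroup Pool.Agent.Lib.Fitting
open scoped commutatorElement

variable {G K : Type} [Group G] [Group K] {C : (G : Type) → [Group G] → Prop}

theorem bez {A : Subgroup G} {c : G} {m n : ℕ} (h : m.Coprime n) (hm : c ^ m ∈ A)
    (hn : c ^ n ∈ A) : c ∈ A := by
  have := mul_mem (zpow_mem hm (m.gcdA n)) (zpow_mem hn (m.gcdB n))
  rwa [← zpow_natCast, ← zpow_natCast, ← zpow_mul, ← zpow_mul, ← zpow_add, ← Nat.gcd_eq_gcd_ab,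
    h, Nat.cast_one, zpow_one] at this

theorem cop {D : Subgroup G} [D.Normal] {e x : G} {m n : ℕ} (h : m.Coprime n) (hx : x ^ n = 1)
    (hm : ⁅e, x⁆ ^ m ∈ D) (hc : ⁅⁅e, x⁆, x⁆ ∈ D) : ⁅e, x⁆ ∈ D := by
  refine bez h hm ((QuotientGroup.eq_one_iff _).1 ?_)
  have c : Commute ⁅(e : G ⧸ D), (x : G ⧸ D)⁆ x :=
    commutatorElement_eq_one_iff_commute.1 ((QuotientGroup.eq_one_iff _).2 hc)
  have : ∀ n : ℕ, (⁅(e : G ⧸ D), (x : G ⧸ D) ^ n⁆) = ⁅(e : G ⧸ D), (x : G ⧸ D)⁆ ^ n := fun n => by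
    induction n with
    | zero => simp
    | succ n ih =>
      rw [pow_succ', commutatorElement_mul_right_eq_mul_conj, ih, mul_assoc _ (x : G ⧸ D),
        ← (c.pow_left n).eq, ← mul_assoc, mul_inv_cancel_right, pow_succ']
  exact (this n).symm.trans (by rw [← QuotientGroup.mk_pow, hx]; simp)

theorem part [Finite G] {p : ℕ} (hp : p.Prime) (y : G) :
    ∃ m k, m.Coprime p ∧ (y ^ m) ^ p ^ k = 1 := by
  obtain ⟨k, m, h1, h2⟩ := Nat.exists_eq_pow_mul_and_not_dvd (orderOf_pos y).ne' p hp.ne_one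
  exact ⟨m, k, (hp.coprime_iff_not_dvd.2 h1).symm, by
    rw [← pow_mul, mul_comm, ← h2, pow_orderOf_eq_one]⟩

theorem gen [Finite G] {p : ℕ} (hp : p.Prime) {Γ N M : Subgroup G} [Γ.Normal] [M.Normal]
    (h : N ⊔ M = ⊤) (hN : ∀ x ∈ N, ∀ k, x ^ p ^ k = 1 → x ∈ Γ)
    (hM : ∀ x ∈ M, ∀ k, x ^ p ^ k = 1 → x ∈ Γ) (x : G) (k : ℕ) (hx : x ^ p ^ k = 1) : x ∈ Γ := by
  obtain ⟨a, ha, b, hb, rfl⟩ := mem_sup_of_normal_right.1 (h ▸ mem_top x)
  obtain ⟨m, j, h1, h2⟩ := part hp a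
  have e : (a ^ m)⁻¹ * (a * b) ^ m ∈ M := QuotientGroup.eq.1 (by
    simp [(QuotientGroup.eq_one_iff b).2 hb])
  obtain ⟨n, i, h3, h4⟩ := part hp ((a ^ m)⁻¹ * (a * b) ^ m)
  refine bez ((h1.mul_left h3).pow_right k) ((QuotientGroup.eq_one_iff _).1 ?_) (hx ▸ one_mem _)
  have := (QuotientGroup.eq_one_iff _).2 (hM _ (pow_mem e n) i h4)
  rwa [QuotientGroup.mk_pow, QuotientGroup.mk_mul, QuotientGroup.mk_inv,
    (QuotientGroup.eq_one_iff _).2 (hN _ (pow_mem ha m) j h2), inv_one, one_mul,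
    ← QuotientGroup.mk_pow, ← pow_mul] at this

/-- the radical -/
def rad (C : (G : Type) → [Group G] → Prop) (G : Type) [Group G] : Subgroup G :=
  sSup {N | N.Normal ∧ C N}

theorem le_rad {N : Subgroup G} (h : N.Normal) (h' : C N) : N ≤ rad C G := le_sSup ⟨h, h'⟩

variable [Finite G] [Finite K]

section
variable (hC : Fit C) (h1 : C Unit)
include hC h1

theorem rad_spec : (rad C G).Normal ∧ C (rad C G) := by
  obtain ⟨N, a, b, c⟩ := hC.rad (G := G) ⟨_, _, inferInstance, h1⟩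
  rw [show rad C G = N from le_antisymm (sSup_le fun K h => c K h.1 h.2) (le_rad a b)]
  exact ⟨a, b⟩

theorem rad_iff (φ : K →* G) (hφ : Function.Injective φ) [hn : φ.range.Normal] (x : K) :
    φ x ∈ rad C G ↔ x ∈ rad C K := by
  obtain ⟨a, b⟩ := rad_spec (G := G) hC h1
  obtain ⟨c, d⟩ := rad_spec (G := K) hC h1
  refine ⟨fun h => le_rad (a.comap φ) (hC.1 _ _ ⟨(equivMapOfInjective _ _ hφ).symm⟩ ?_) h,
    fun h => le_rad ⟨?_⟩ (hC.1 _ _ ⟨equivMapOfInjective _ _ hφ⟩ d) ⟨x, h, rfl⟩⟩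
  · rw [map_comap_eq]
    exact hC.down inf_le_right inferInstance b
  · rintro _ ⟨y, hy, rfl⟩ g
    let ψ : K ≃* K := ((MonoidHom.ofInjective hφ).trans (MulAut.conjNormal g)).trans
      (MonoidHom.ofInjective hφ).symm
    refine ⟨ψ y, le_rad (c.map ψ.toMonoidHom ψ.surjective)
      (hC.1 _ _ ⟨equivMapOfInjective _ _ ψ.injective⟩ d) ⟨y, hy, rfl⟩, ?_⟩
    exact MonoidHom.apply_ofInjective_symm hφ _

theorem sub_iff {N : Subgroup G} [N.Normal] (x : N) : x.1 ∈ rad C G ↔ x ∈ rad C N :=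
  have : N.subtype.range.Normal := by rwa [range_subtype]
  rad_iff hC h1 N.subtype N.subtype_injective x

theorem subn {U : Subgroup G} (h : U.IsSubnormal) :
    ∀ x : U, x ∈ rad C U → x.1 ∈ rad C G := by
  induction h with
  | top => exact fun x => (sub_iff hC h1 x).2
  | step H K l _ n ih =>
    have : (inclusion l).range.Normal := by rwa [inclusion_range]
    exact fun x hx => ih _ ((rad_iff hC h1 _ (inclusion_injective l) x).2 hx)

theorem n0 {S : Set (Subgroup G)} (h : ∀ N ∈ S, N.IsSubnormal ∧ C N) (e : sSup S = ⊤) : C G := by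
  have : rad C G = ⊤ := top_unique (e ▸ sSup_le fun N hN x hx => subn hC h1 (h N hN).1 ⟨x, hx⟩
    (le_rad inferInstance (hC.top.2 (h N hN).2) (mem_top _)))
  exact hC.top.1 (this ▸ (rad_spec hC h1).2)

end

theorem mkFit (a : ∀ (G K : Type) [Group G] [Group K] (φ : K →* G), Function.Injective φ →
      φ.range.Normal → C G → C K)
    (b : ∀ (G : Type) [Group G] [Finite G] (N M : Subgroup G), N.Normal → M.Normal → N ⊔ M = ⊤ →
      C N → C M → C G) : Fit C := by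
  have i : ∀ (G K : Type) [Group G] [Group K], Nonempty (G ≃* K) → C G → C K :=
    fun G K _ _ ⟨e⟩ => a _ _ e.symm.toMonoidHom e.symm.injective (by
      rw [MonoidHom.range_eq_top.2 e.symm.surjective]; infer_instance)
  exact ⟨i, fun G _ _ N _ => a _ _ N.subtype N.subtype_injective (by rwa [range_subtype]),
    fun G _ _ N M _ _ h h' => b _ (N.subgroupOf _) (M.subgroupOf _) inferInstance inferInstance
      (by rw [← subgroupOf_sup le_sup_left le_sup_right, subgroupOf_self])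
      (i _ _ ⟨(subgroupOfEquivOfLe le_sup_left).symm⟩ h)
      (i _ _ ⟨(subgroupOfEquivOfLe le_sup_right).symm⟩ h')⟩

/-- 5-groups -/
def P5 (G : Type) [Group G] : Prop := IsPGroup 5 G

theorem f5 : Fit P5 := ⟨fun _ _ _ _ ⟨e⟩ h => h.of_equiv e, fun _ _ _ _ _ h => h.to_subgroup _,
  fun _ _ _ _ _ _ _ h h' => h.to_sup_of_normal_right h'⟩

theorem u5 : P5 Unit := fun _ => ⟨0, rfl⟩

instance : (rad P5 G).Normal := (rad_spec f5 u5).1

/-- finite groups whose `p`-elements centralise the largest normal 5-subgroup -/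
def T (p : ℕ) (G : Type) [Group G] : Prop :=
  Finite G ∧ ∀ x : G, ∀ k, x ^ p ^ k = 1 → x ∈ centralizer (rad P5 G : Set G)

theorem up {p : ℕ} (hp : (5 : ℕ).Coprime p) {N : Subgroup G} [N.Normal] (h : T p N) (x : G)
    (hx : x ∈ N) (k : ℕ) (e : x ^ p ^ k = 1) : x ∈ centralizer (rad P5 G : Set G) := fun b hb => by
  have c1 : ⁅b, x⁆ ∈ rad P5 G := commutator_le_left _ ⊤ (commutator_mem_commutator hb (mem_top x))
  have c2 : ⁅b, x⁆ ∈ N := commutator_le_right ⊤ _ (commutator_mem_commutator (mem_top b) hx)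
  obtain ⟨j, hj⟩ := (rad_spec (G := G) f5 u5).2 ⟨_, c1⟩
  refine commutatorElement_eq_one_iff_mul_comm.1 (mem_bot.1 (cop ((hp.pow_left j).pow_right k) e
    (congrArg Subtype.val hj) (commutatorElement_eq_one_iff_mul_comm.2 ?_)))
  exact congrArg Subtype.val (h.2 ⟨x, hx⟩ k (Subtype.ext e) ⟨_, c2⟩ ((sub_iff f5 u5 _).1 c1))

theorem fT {p : ℕ} (hp : p.Prime) (h5 : (5 : ℕ).Coprime p) : Fit (T p) :=
  mkFit (fun G K _ _ φ hφ _ ⟨_, h⟩ => have := Finite.of_injective φ hφ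
    ⟨this, fun x k e b hb => hφ (by
      rw [map_mul, map_mul]
      exact h (φ x) k (by rw [← map_pow, e, map_one]) _ ((rad_iff f5 u5 φ hφ b).2 hb))⟩)
    fun G _ _ N M _ _ e h h' => ⟨‹_›, gen hp e (up h5 h) (up h5 h')⟩

theorem uT (p : ℕ) : T p Unit := ⟨inferInstance, fun _ _ _ _ _ => rfl⟩

theorem f2 : Fit (T 2) := fT Nat.prime_two (by norm_num)
theorem f3 : Fit (T 3) := fT Nat.prime_three (by norm_num)

instance : (rad (T 2) G).Normal := (rad_spec f2 (uT 2)).1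
instance : (rad (T 3) G).Normal := (rad_spec f3 (uT 3)).1

theorem mkT {p : ℕ} {N : Subgroup G} [N.Normal]
    (h : ∀ x ∈ N, ∀ k, x ^ p ^ k = 1 → x ∈ centralizer (rad P5 G : Set G)) : N ≤ rad (T p) G :=
  le_rad ‹_› ⟨inferInstance, fun x k e b hb => Subtype.ext
    (h x x.2 k (congrArg Subtype.val e) _ ((sub_iff f5 u5 b).2 hb))⟩

theorem od {e : G} (h : e ∈ rad (T 2) G) :
    ∃ m, m.Coprime 2 ∧ e ^ m ∈ centralizer (rad P5 G : Set G) := by
  obtain ⟨m, k, h1, h2⟩ := part Nat.prime_two e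
  exact ⟨m, h1, up (by norm_num) (rad_spec f2 (uT 2)).2 _ (pow_mem h m) k h2⟩

theorem od' {e : G} (h : e ∈ rad (T 2) G) : ∃ m, m.Coprime 2 ∧ e ^ m ∈ rad (T 3) G :=
  (od h).imp fun _ h => ⟨h.1, mkT (fun _ h _ _ => h) h.2⟩

/-- the class -/
def Cl (G : Type) [Group G] : Prop :=
  Finite G ∧ ∀ e ∈ rad (T 2) G, ∀ x : G, ∀ k, x ^ 2 ^ k = 1 → ⁅e, x⁆ ∈ rad (T 3) G

theorem fC : Fit Cl := by
  refine mkFit (fun G K _ _ φ hφ _ ⟨_, h⟩ => have := Finite.of_injective φ hφ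
    ⟨this, fun e he x k hx => (rad_iff f3 (uT 3) φ hφ _).1 (map_commutatorElement φ e x ▸
      h _ ((rad_iff f2 (uT 2) φ hφ _).2 he) _ k (by rw [← map_pow, hx, map_one]))⟩)
    fun G _ _ N M _ _ e h h' => ⟨‹_›, fun a ha x k hx => ?_⟩
  let π := QuotientGroup.mk' (rad (T 3) G)
  have := Normal.map (inferInstance : (rad (T 2) G).Normal) π (QuotientGroup.mk'_surjective _)
  have key : ∀ {N : Subgroup G} [N.Normal], Cl N → ∀ x ∈ N, ∀ k, x ^ 2 ^ k = 1 →
      x ∈ (centralizer ((rad (T 2) G).map π)).comap π := fun {N} _ h x hx k e => by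
    rintro _ ⟨b, hb, rfl⟩
    have c1 : ⁅b, x⁆ ∈ rad (T 2) G :=
      commutator_le_left _ ⊤ (commutator_mem_commutator hb (mem_top x))
    have c2 : ⁅b, x⁆ ∈ N := commutator_le_right ⊤ _ (commutator_mem_commutator (mem_top b) hx)
    obtain ⟨m, h1, h2⟩ := od' c1
    exact commutatorElement_eq_one_iff_mul_comm.1 ((QuotientGroup.eq_one_iff ⁅b, x⁆).2
      (cop (h1.pow_right k) e h2 ((sub_iff f3 (uT 3) _).2
        (h.2 ⟨_, c2⟩ ((sub_iff f2 (uT 2) _).1 c1) ⟨x, hx⟩ k (Subtype.ext e)))))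
  exact (QuotientGroup.eq_one_iff ⁅a, x⁆).1 (commutatorElement_eq_one_iff_mul_comm.2
    (gen Nat.prime_two e (key h) (key h') x k hx _ ⟨a, ha, rfl⟩))

omit [Finite G] in
theorem fis (h : Cl G) (K : Subgroup G)
    (hn : Group.IsNilpotent (K ⧸ K.normalCore.subgroupOf K)) : Cl K := by
  have := h.1
  refine ⟨inferInstance, fun e he x k hx => ?_⟩
  have c1 : ⁅e, x⁆ ∈ rad (T 2) K :=
    commutator_le_left _ ⊤ (commutator_mem_commutator he (mem_top x))
  obtain ⟨m, h1, h2⟩ := od' c1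
  refine cop (h1.pow_right k) hx h2 ?_
  obtain ⟨S, hS⟩ := IsPGroup.exists_le_sylow (P := zpowers (x : K ⧸ K.normalCore.subgroupOf K))
    (IsPGroup.of_card_dvd_pow (p := 2) (n := k) (by
      rw [Nat.card_zpowers]
      exact orderOf_dvd_of_pow_eq_one (by rw [← QuotientGroup.mk_pow, hx]; rfl)))
  have := S.normal_of_normalizerCondition Group.normalizerCondition_of_isNilpotent
  obtain ⟨j, hj⟩ := S.2 ⟨⁅(e : K ⧸ K.normalCore.subgroupOf K), x⁆, commutator_le_right ⊤ _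
    (commutator_mem_commutator (mem_top _) (hS (mem_zpowers _)))⟩
  have c2 : (⁅e, x⁆ ^ 2 ^ j : K).1 ∈ K.normalCore :=
    (QuotientGroup.eq_one_iff (N := K.normalCore.subgroupOf K) _).1 (congrArg Subtype.val hj)
  have : (inclusion K.normalCore_le).range.Normal := by rw [inclusion_range]; infer_instance
  have c3 := h.2 _ ((sub_iff f2 (uT 2) ⟨_, c2⟩).2 ((rad_iff f2 (uT 2) _
    (inclusion_injective K.normalCore_le) _).1 (pow_mem c1 _))) x k (congrArg Subtype.val hx)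
  have c4 : ⁅⁅e, x⁆ ^ 2 ^ j, x⁆ ∈ rad (T 3) K := (rad_iff f3 (uT 3) _
    (inclusion_injective K.normalCore_le) ⟨_, commutator_le_left _ ⊤
      (commutator_mem_commutator c2 (mem_top x.1))⟩).2 ((sub_iff f3 (uT 3) _).1 c3)
  let π := QuotientGroup.mk' (rad (T 3) K)
  have := bez (A := (centralizer {π x}).comap π) (h1.pow_right j) (mem_centralizer_singleton_iff.2
    (by rw [show π _ = 1 from (QuotientGroup.eq_one_iff _).2 h2]; simp))
    (mem_centralizer_singleton_iff.2 (commutatorElement_eq_one_iff_mul_comm.1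
      ((QuotientGroup.eq_one_iff _).2 c4)))
  exact (QuotientGroup.eq_one_iff _).1 (commutatorElement_eq_one_iff_mul_comm.2
    (mem_centralizer_singleton_iff.1 this))

end Pool.Agent.H.MP_36bee3_al
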