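import Pool.Agent.H.MP_36bee3_al.A

set_option maxHeartbeats 400000

namespace Pool.Agent.H.MP_36bee3_al

open Subgroup Pool.Agent.Lib.Fitting RegularWreathProduct
open scoped commutatorElement

variable {D Q : Type} [CommGroup D] [Group Q]

/-- the base group -/
def base : (Q → D) →* D ≀ᵣ Q := MonoidHom.mk' (fun f => ⟨f, 1⟩) fun f g => by ext <;> simp

theorem wrc [Nontrivial D] {w : D ≀ᵣ Q} (h : ∀ f, Commute (base f) w) : w.right = 1 := by
  classical
  obtain ⟨d, hd⟩ := exists_ne (1 : D)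
  by_contra n
  have := congrFun (congrArg RegularWreathProduct.left (h (Pi.mulSingle 1 d))) 1
  simp [base, mul_comm, n, hd] at this

theorem wrb {w : D ≀ᵣ Q} (h : w.right = 1) : base w.left = w :=
  RegularWreathProduct.ext rfl h.symm

instance [Group.IsSolvable Q] : Group.IsSolvable (D ≀ᵣ Q) :=
  Group.isSolvable_of_ker_le_range base rightHom fun _ h => ⟨_, wrb h⟩

theorem wrp {n : ℕ} (hD : ∀ d : D, d ^ n = 1) {w : D ≀ᵣ Q} (h : w.right = 1) : w ^ n = 1 := by
  rw [← wrb h, ← map_pow, show w.left ^ n = 1 from funext fun _ => hD _, map_one]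

/-- cyclic groups -/
abbrev Z (n : ℕ) := Multiplicative (ZMod n)

theorem z2 : ∀ d : Z 2, d ^ 2 = 1 := by decide
theorem z5 : ∀ d : Z 5, d ^ 5 = 1 := by decide
instance : Fact (1 < 5) := ⟨by norm_num⟩

theorem wr2 {N : Subgroup (Z 2 ≀ᵣ Q)} [hN : N.Normal] (h : ∀ x ∈ N, ∃ m, m.Coprime 2 ∧ x ^ m = 1) :
    ∀ x ∈ N, x = 1 := by
  have a : ∀ x ∈ N, x.right = 1 → x = 1 := fun x hx e => by
    obtain ⟨m, h1, h2⟩ := h x hx
    exact mem_bot.1 (bez h1 h2 (wrp z2 e))
  refine fun x hx => a x hx (wrc fun f => commutatorElement_eq_one_iff_commute.1 (a _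
    (commutator_le_right ⊤ _ (commutator_mem_commutator (mem_top _) hx)) ?_))
  simp [commutatorElement_def, base]

/-- the groups -/
abbrev T0 := Equiv.Perm (Fin 3)
abbrev S := Z 2 ≀ᵣ T0
abbrev W := Z 5 ≀ᵣ S
abbrev U := Z 2 ≀ᵣ W
abbrev V := Z 5 ≀ᵣ T0

instance : Group.IsSolvable T0 := Group.isSolvable_of_ker_le_range
  (zpowers (finRotate 3)).subtype Equiv.Perm.sign fun x (hx : Equiv.Perm.sign x = 1) => by
    have : ∀ x : T0, Equiv.Perm.sign x = 1 → ∃ k : Fin 3, finRotate 3 ^ k.1 = x := by decide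
    obtain ⟨k, rfl⟩ := this x hx
    exact ⟨⟨_, npow_mem_zpowers _ _⟩, rfl⟩

/-- first quotient -/
def J : Subgroup (W × V) :=
  ((rightHom.comp rightHom).comp (MonoidHom.fst _ _)).eqLocus (rightHom.comp (MonoidHom.snd _ _))

/-- the counterexample -/
def G : Subgroup (U × V) := J.comap (rightHom.prodMap (MonoidHom.id V))

/-- first projection -/
def ψ : G →* J :=
  ((rightHom.prodMap (MonoidHom.id V) : U × V →* W × V).comp G.subtype).codRestrict J fun x => x.2

/-- second projection -/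
def χ : G →* U := (MonoidHom.fst _ _).comp G.subtype

theorem sψ : Function.Surjective ψ := fun x => ⟨⟨(inl x.1.1, x.1.2), x.2⟩, rfl⟩

theorem sχ : Function.Surjective χ := fun u => ⟨⟨(u, inl u.right.right.right), rfl⟩, rfl⟩

theorem dis : ψ.ker ⊓ χ.ker = ⊥ := eq_bot_iff.2 fun _ h =>
  Subtype.ext (Prod.ext h.2 (congrArg (fun y : J => y.1.2) h.1))

theorem o5 {H : Type} [Group H] [Finite H] {φ : H →* U} (h : Function.Surjective φ) {x : H}
    (hx : x ∈ rad P5 H) : φ x = 1 := by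
  have := Normal.map (inferInstance : (rad P5 H).Normal) φ h
  refine wr2 (N := (rad P5 H).map φ) ?_ _ ⟨x, hx, rfl⟩
  rintro _ ⟨y, hy, rfl⟩
  obtain ⟨k, e⟩ := (rad_spec f5 u5).2 ⟨y, hy⟩
  exact ⟨5 ^ k, Nat.Coprime.pow_left k (by norm_num), by
    rw [← map_pow, show y ^ 5 ^ k = 1 from congrArg Subtype.val e, map_one]⟩

theorem cU : Cl U := ⟨inferInstance, fun _ _ _ _ _ => mkT (N := ⊤) (fun x _ _ _ b hb => by
  rw [show b = 1 from o5 (φ := MonoidHom.id U) Function.surjective_id hb]; simp) (mem_top _)⟩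

theorem cJ : Cl J := by
  let κ : J →* S := rightHom.comp ((MonoidHom.fst _ _).comp J.subtype)
  have sκ : Function.Surjective κ := fun s => ⟨⟨(inl s, inl s.right), rfl⟩, rfl⟩
  have p : ∀ x ∈ κ.ker, x ^ 5 = 1 := fun x hx => Subtype.ext (Prod.ext (wrp z5 hx) (wrp z5
    (x.2.symm.trans (congrArg RegularWreathProduct.right hx))))
  have l : κ.ker ≤ rad P5 J := le_rad inferInstance fun x => ⟨1, Subtype.ext (p _ x.2)⟩
  have := Normal.map (inferInstance : (rad (T 2) J).Normal) κ sκ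
  refine ⟨inferInstance, fun e he x _ _ => mkT (N := κ.ker) (fun y hy k h => by
    rw [mem_bot.1 (bez (A := ⊥) (Nat.Coprime.pow_right k (by norm_num)) (p y hy) h)]
    exact one_mem _) (commutator_le_left _ ⊤ (commutator_mem_commutator ?_ (mem_top x)))⟩
  refine wr2 (N := (rad (T 2) J).map κ) ?_ _ ⟨e, he, rfl⟩
  rintro _ ⟨y, hy, rfl⟩
  obtain ⟨m, h1, h2⟩ := od hy
  exact ⟨m, h1, (map_pow κ y m).symm.trans (wrc fun f =>
    congrArg (fun y : J => y.1.1) (h2 ⟨(base f, 1), rfl⟩ (l rfl)))⟩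

theorem nG : ¬ Cl G := fun h => by
  let τ : G →* T0 := rightHom.comp ((MonoidHom.snd _ _).comp G.subtype)
  let ι : T0 →* G := ((inl.comp (inl.comp inl)).prod inl).codRestrict G fun _ => rfl
  have a : (Equiv.Perm.sign.comp τ).ker ≤ rad (T 2) G := mkT fun x hx k e b hb => by
    have h1 : b.1.1 = 1 := o5 sχ hb
    have h2 : b.1.2.right = 1 := b.2.symm.trans (congrArg (fun u : U => u.right.right.right) h1)
    have h3 : τ x = 1 := mem_bot.1 (bez (A := ⊥) (Nat.Coprime.pow_right k (by norm_num))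
      ((by decide : ∀ t : T0, Equiv.Perm.sign t = 1 → t ^ 3 = 1) _ hx)
      (show τ x ^ 2 ^ k = 1 by rw [← map_pow, e, map_one]))
    refine Subtype.ext (Prod.ext (by simp [h1]) ?_)
    show b.1.2 * x.1.2 = x.1.2 * b.1.2
    rw [← wrb h2, ← wrb (w := x.1.2) h3, ← map_mul, ← map_mul, mul_comm]
  have b := h.2 (ι (finRotate 3)) (a (show Equiv.Perm.sign (finRotate 3) = 1 by decide))
    (ι (Equiv.swap 0 1)) 1 (by rw [← map_pow, show Equiv.swap (0 : Fin 3) 1 ^ 2 ^ 1 = 1 by decide,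
      map_one])
  rw [← map_commutatorElement] at b
  have c := up (by norm_num) (rad_spec f3 (uT 3)).2 _ b 1 (by
    rw [← map_pow, show ⁅finRotate 3, Equiv.swap (0 : Fin 3) 1⁆ ^ 3 ^ 1 = 1 by decide, map_one])
  have l : χ.ker ≤ rad P5 G := le_rad inferInstance fun x => ⟨1, Subtype.ext (Subtype.ext
    (Prod.ext (congrArg (· ^ 5) x.2) (wrp z5 (x.1.2.symm.trans
      (congrArg (fun u : U => u.right.right.right) x.2)))))⟩
  exact absurd (wrc fun f => congrArg (fun y : G => y.1.2) (c ⟨(1, base f), rfl⟩ (l rfl)))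
    (show ⁅finRotate 3, Equiv.swap (0 : Fin 3) 1⁆ ≠ 1 by decide)

end Pool.Agent.H.MP_36bee3_al
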